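import Mathlib

/-!
# Periodicity of generalized pseudostandard words over `d` letters (MP_757726, Q1: true)
-/

set_option autoImplicit false

namespace Pool.Agent.Results.MP_757726_co.Periodicity

/-- An involutory antimorphism of the free monoid on `A`. -/
structure Anti (A : Type*) where
  map : List A → List A
  map_append : ∀ v w, map (v ++ w) = map w ++ map v
  invol : ∀ w, map (map w) = w

variable {A : Type*}

/-- `w` is a `θ`-palindrome. -/
def IsPal (θ : Anti A) (w : List A) : Prop := θ.map w = w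

/-- `c` is the `θ`-palindromic closure of `w`: a shortest `θ`-palindrome with prefix `w`. -/
def IsClosure (θ : Anti A) (w c : List A) : Prop :=
  IsPal θ c ∧ w <+: c ∧ ∀ c', IsPal θ c' → w <+: c' → c.length ≤ c'.length

/-- The prefix of length `n` of an infinite word. -/
def pre (u : ℕ → A) (n : ℕ) : List A := (List.range n).map u

/-- The directive bi-sequence `(Δ, Θ)`, with `Δ n = δ_{n+1}` and `Θ n = ϑ_{n+1}`, generates the
infinite word `u` by the words `W n = w_n`. -/
structure Generates (Δ : ℕ → A) (Θ : ℕ → Anti A) (W : ℕ → List A) (u : ℕ → A) : Prop where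
  zero : W 0 = []
  succ : ∀ n, IsClosure (Θ n) (W n ++ [Δ n]) (W (n + 1))
  isPrefix : ∀ n, W n = pre u (W n).length

/-- The bi-sequence is normalized: every pseudopalindromic prefix of `u` is one of the `W n`. -/
def Normalized (W : ℕ → List A) (u : ℕ → A) : Prop :=
  ∀ (θ : Anti A) (n : ℕ), IsPal θ (pre u n) → ∃ k, W k = pre u n

/-- `u = w v^ω` for finite words `w`, `v` with `v` non-empty. -/
def Periodic (u : ℕ → A) : Prop := ∃ N p, 0 < p ∧ ∀ i, N ≤ i → u (i + p) = u i

/-- Condition 1 from the index `N` on. -/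
def Cond1 (Δ : ℕ → A) (Θ : ℕ → Anti A) (N : ℕ) : Prop :=
  ∀ i j, N ≤ i → N ≤ j → (Θ i).map [Δ (i + 1)] = (Θ j).map [Δ (j + 1)]

/-- Condition 2 from the index `N` on. -/
def Cond2 (Θ : ℕ → Anti A) (N : ℕ) : Prop :=
  ∀ i, N ≤ i → ∀ w, IsPal (Θ i) w → IsPal (Θ (i + 2)) ((Θ (i + 1)).map w)

/-! ### Antimorphisms and letters -/

lemma map_nil (θ : Anti A) : θ.map [] = [] := by
  have h := congrArg List.length (θ.map_append [] [])
  rw [List.append_nil, List.length_append] at h
  exact List.length_eq_zero_iff.mp (by omega)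

lemma map_single_pos (θ : Anti A) (a : A) : 1 ≤ (θ.map [a]).length := by
  by_contra h
  have h0 : θ.map [a] = [] := List.length_eq_zero_iff.mp (by omega)
  have h1 := θ.invol [a]
  rw [h0, map_nil] at h1
  simp at h1

lemma length_le (θ : Anti A) (w : List A) : w.length ≤ (θ.map w).length := by
  induction w with
  | nil => simp
  | cons a w ih =>
    rw [show a :: w = [a] ++ w by rfl, θ.map_append, List.length_append, List.length_append]
    have := map_single_pos θ a
    simp only [List.length_singleton]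
    omega

lemma length_map (θ : Anti A) (w : List A) : (θ.map w).length = w.length := by
  have h1 := length_le θ w
  have h2 := length_le θ (θ.map w)
  rw [θ.invol] at h2
  omega

/-- the letter map -/
def lt (θ : Anti A) (a : A) : A := (θ.map [a]).headD a

lemma map_single (θ : Anti A) (a : A) : θ.map [a] = [lt θ a] := by
  obtain ⟨b, hb⟩ := List.length_eq_one_iff.mp (length_map θ [a])
  unfold lt
  rw [hb]
  rfl

lemma map_eq (θ : Anti A) (w : List A) : θ.map w = (w.map (lt θ)).reverse := by
  induction w with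
  | nil => rw [map_nil]; rfl
  | cons a w ih =>
    rw [show a :: w = [a] ++ w by rfl, θ.map_append, ih, map_single]
    simp

lemma lt_lt (θ : Anti A) (a : A) : lt θ (lt θ a) = a := by
  have h := θ.invol [a]
  rw [map_single, map_single] at h
  simpa using h

lemma pre_length (u : ℕ → A) (n : ℕ) : (pre u n).length = n := by simp [pre]

lemma pre_get (u : ℕ → A) (n i : ℕ) (h : i < (pre u n).length) : (pre u n)[i] = u i := by
  simp [pre]

lemma isPal_pre (θ : Anti A) (u : ℕ → A) (n : ℕ) :
    IsPal θ (pre u n) ↔ ∀ i < n, lt θ (u (n - 1 - i)) = u i := by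
  unfold IsPal
  rw [map_eq]
  constructor
  · intro h i hi
    have h1 : ((pre u n).map (lt θ)).reverse[i]'(by simp [pre_length]; exact hi)
        = (pre u n)[i]'(by rw [pre_length]; exact hi) := by
      simp only [h]
    rw [List.getElem_reverse, List.getElem_map, pre_get, pre_get] at h1
    simp only [List.length_map, pre_length] at h1
    exact h1
  · intro h
    apply List.ext_getElem
    · simp
    · intro i h1 h2
      rw [List.getElem_reverse, List.getElem_map, pre_get, pre_get]
      simp only [List.length_map, pre_length]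
      rw [pre_length] at h2
      exact h i h2

/-- The antimorphism given by an involution of the alphabet. -/
def ofInv (f : A → A) (hf : ∀ a, f (f a) = a) : Anti A where
  map w := (w.map f).reverse
  map_append v w := by simp
  invol w := by
    have : f ∘ f = id := funext hf
    simp [List.map_reverse, this]

lemma lt_ofInv (f : A → A) (hf : ∀ a, f (f a) = a) (a : A) : lt (ofInv f hf) a = f a := by
  simp [lt, ofInv]

/-! ### Basic facts on the generating words -/

section
variable {Δ : ℕ → A} {Θ : ℕ → Anti A} {W : ℕ → List A} {u : ℕ → A}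

lemma pal_succ (h : Generates Δ Θ W u) (n : ℕ) : IsPal (Θ n) (W (n + 1)) := (h.succ n).1

lemma len_lt (h : Generates Δ Θ W u) (n : ℕ) : (W n).length < (W (n + 1)).length := by
  have := (h.succ n).2.1.length_le
  rw [List.length_append, List.length_singleton] at this
  omega

lemma le_len (h : Generates Δ Θ W u) (n : ℕ) : n ≤ (W n).length := by
  induction n with
  | zero => omega
  | succ n ih => have := len_lt h n; omega

lemma len_mono (h : Generates Δ Θ W u) : StrictMono fun n => (W n).length :=
  strictMono_nat_of_lt_succ (len_lt h)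

/-- The letter after `W n` is `Δ n`. -/
lemma letter_after (h : Generates Δ Θ W u) (n : ℕ) : u (W n).length = Δ n := by
  obtain ⟨t, ht⟩ := (h.succ n).2.1
  have h1 := h.isPrefix (n + 1)
  have hlt := len_lt h n
  have h2 : (W (n + 1))[(W n).length]'hlt = Δ n := by
    simp only [← ht]
    rw [List.getElem_append_left (by simp), List.getElem_append_right (le_refl _)]
    simp
  have h3 : (W (n + 1))[(W n).length]'hlt = u (W n).length := by
    rw [List.getElem_of_eq h1 hlt, pre_get]
  rw [← h2, h3]

lemma pal_letters (h : Generates Δ Θ W u) (n i : ℕ) (hi : i < (W (n + 1)).length) :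
    lt (Θ n) (u ((W (n + 1)).length - 1 - i)) = u i := by
  have h1 := pal_succ h n
  rw [h.isPrefix (n + 1)] at h1
  exact (isPal_pre _ _ _).mp h1 i hi

end

section
variable {Δ : ℕ → A} {Θ : ℕ → Anti A} {W : ℕ → List A} {u : ℕ → A}

/-- Consequence of condition 2 on letters. -/
lemma cond2_letters {N : ℕ} (h2 : Cond2 Θ N) {i : ℕ} (hi : N ≤ i) (a : A) :
    lt (Θ (i + 2)) (lt (Θ (i + 1)) a) = lt (Θ (i + 1)) (lt (Θ i) a) := by
  have h := h2 i hi [a, lt (Θ i) a] (by
    unfold IsPal
    rw [map_eq]
    simp [lt_lt])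
  unfold IsPal at h
  rw [map_eq, map_eq] at h
  simp at h
  exact h.1

/-- The candidate for the next palindromic closure. -/
lemma len_ineq (h : Generates Δ Θ W u) {N : ℕ} (h1 : Cond1 Δ Θ N) (h2 : Cond2 Θ N) {m : ℕ}
    (hm : N + 1 ≤ m) : (W (m + 2)).length + (W m).length ≤ 2 * (W (m + 1)).length := by
  obtain ⟨k, rfl⟩ : ∃ k, m = k + 1 := ⟨m - 1, by omega⟩
  -- `W (k+1)` is a `Θ k`-palindrome, `W (k+2)` is a `Θ (k+1)`-palindrome
  obtain ⟨t, ht⟩ := (h.succ (k + 1)).2.1
  have hp2 := pal_succ h (k + 1)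
  have hp1 := pal_succ h k
  unfold IsPal at hp1 hp2
  -- the suffix of `W (k+2)`
  have hsuf : (Θ (k + 1)).map t ++ ([lt (Θ (k + 1)) (Δ (k + 1))] ++ (Θ (k + 1)).map (W (k + 1)))
      = W (k + 2) := by
    rw [← hp2, ← ht, (Θ (k + 1)).map_append, (Θ (k + 1)).map_append, map_single]
  -- letters
  have e1 : lt (Θ (k + 1)) (Δ (k + 2)) = lt (Θ k) (Δ (k + 1)) := by
    have := h1 (k + 1) k (by omega) (by omega)
    rw [map_single, map_single] at this
    simpa using this
  have e2 : ∀ a, lt (Θ (k + 2)) (lt (Θ (k + 1)) a) = lt (Θ (k + 1)) (lt (Θ k) a) :=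
    cond2_letters h2 (by omega)
  have e3 : lt (Θ (k + 2)) (lt (Θ (k + 1)) (Δ (k + 1))) = Δ (k + 2) := by
    rw [e2, ← e1, lt_lt]
  have e4 : lt (Θ (k + 2)) (Δ (k + 2)) = lt (Θ (k + 1)) (Δ (k + 1)) := by
    rw [← e3, lt_lt]
  have e5 : (Θ (k + 2)).map ((Θ (k + 1)).map (W (k + 1))) = (Θ (k + 1)).map (W (k + 1)) :=
    h2 k (by omega) (W (k + 1)) hp1
  -- the palindrome
  have hmin := (h.succ (k + 2)).2.2
    ((Θ (k + 1)).map t ++ (([lt (Θ (k + 1)) (Δ (k + 1))] ++ (Θ (k + 1)).map (W (k + 1))
      ++ [Δ (k + 2)]) ++ (Θ (k + 2)).map ((Θ (k + 1)).map t)))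
    (by
      unfold IsPal
      simp only [(Θ (k + 2)).map_append, (Θ (k + 2)).invol, map_single, e5, e3, e4,
        List.append_assoc])
    (by
      rw [← hsuf]
      simp only [List.append_assoc]
      rw [List.prefix_append_right_inj, List.prefix_append_right_inj,
        List.prefix_append_right_inj]
      exact List.prefix_append _ _)
  have l1 := congrArg List.length hsuf
  simp only [List.length_append, List.length_singleton, length_map] at l1 hmin
  rw [show k + 1 + 2 = k + 2 + 1 from rfl, show k + 1 + 1 = k + 2 from rfl]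
  omega

/-- A positive sequence that is eventually non-increasing is eventually constant. -/
lemma ev_const (D : ℕ → ℕ) (N : ℕ) (h : ∀ m, N ≤ m → D (m + 1) ≤ D m) :
    ∃ M g, N ≤ M ∧ ∀ m, M ≤ m → D m = g := by
  have hanti : ∀ a b, N ≤ a → a ≤ b → D b ≤ D a := by
    intro a b ha hab
    induction b, hab using Nat.le_induction with
    | base => exact le_rfl
    | succ b hb ih => exact (h b (by omega)).trans ih
  classical
  have hex : ∃ g, ∃ m, N ≤ m ∧ D m = g := ⟨D N, N, le_rfl, rfl⟩
  obtain ⟨M, hM, hg⟩ := Nat.find_spec hex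
  refine ⟨M, Nat.find hex, hM, ?_⟩
  intro m hm
  apply le_antisymm
  · rw [← hg]; exact hanti M m hM hm
  · exact Nat.find_min' hex ⟨m, by omega, rfl⟩

/-- Letters shifted by the length difference. -/
lemma shift (h : Generates Δ Θ W u) {n g : ℕ}
    (hg : (W (n + 2)).length = (W (n + 1)).length + g) (i : ℕ) (hi : i < (W (n + 1)).length) :
    u (i + g) = lt (Θ (n + 1)) (lt (Θ n) (u i)) := by
  have hg : (W (n + 1 + 1)).length = (W (n + 1)).length + g := hg
  have h1 := pal_letters h (n + 1) (i + g) (by omega)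
  have h2 := pal_letters h n i hi
  rw [hg, show (W (n + 1)).length + g - 1 - (i + g) = (W (n + 1)).length - 1 - i by omega] at h1
  rw [← h1]
  congr 1
  rw [← h2, lt_lt]

theorem if_direction [Finite A] (h : Generates Δ Θ W u) {N : ℕ} (h1 : Cond1 Δ Θ N)
    (h2 : Cond2 Θ N) : Periodic u := by
  obtain ⟨M, g, hM, hg⟩ := ev_const (fun m => (W (m + 1)).length - (W m).length) (N + 1) (by
    intro m hm
    have a1 := len_ineq h h1 h2 hm
    have a2 := len_lt h m
    have a3 := len_lt h (m + 1)
    rw [show m + 2 = m + 1 + 1 from rfl] at a1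
    omega)
  have hgp : 0 < g := by
    have a1 := hg M le_rfl
    have a2 := len_lt h M
    omega
  -- the twist
  have hφ : ∀ n, M ≤ n → ∀ a, lt (Θ (n + 1)) (lt (Θ n) a) = lt (Θ (M + 1)) (lt (Θ M) a) := by
    intro n hn
    induction n, hn using Nat.le_induction with
    | base => intro a; rfl
    | succ n hn ih =>
      intro a
      rw [cond2_letters h2 (by omega), ih]
  have hsh : ∀ i, u (i + g) = lt (Θ (M + 1)) (lt (Θ M) (u i)) := by
    intro i
    have a1 := hg (M + i + 1) (by omega)
    have a2 := len_lt h (M + i + 1)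
    have a3 := le_len h (M + i + 1)
    rw [shift h (n := M + i) (g := g) (by
      rw [show M + i + 2 = M + i + 1 + 1 by ring]; omega) i (by omega)]
    exact hφ _ (by omega) _
  -- the twist is a permutation of finite order
  let σ : Equiv.Perm A :=
    { toFun := fun a => lt (Θ (M + 1)) (lt (Θ M) a)
      invFun := fun a => lt (Θ M) (lt (Θ (M + 1)) a)
      left_inv := fun a => by simp only [lt_lt]
      right_inv := fun a => by simp only [lt_lt] }
  have hσ : ∀ i, u (i + g) = σ (u i) := hsh
  have hpow : ∀ k i, u (i + k * g) = (σ ^ k) (u i) := by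
    intro k
    induction k with
    | zero => intro i; simp
    | succ k ih =>
      intro i
      rw [show i + (k + 1) * g = (i + k * g) + g by ring, hσ, ih, pow_succ']
      rfl
  have hfin : IsOfFinOrder σ := isOfFinOrder_of_finite σ
  refine ⟨0, orderOf σ * g, Nat.mul_pos hfin.orderOf_pos hgp, ?_⟩
  intro i _
  rw [hpow, pow_orderOf_eq_one]
  rfl

end

/-! ### Periodic words -/

/-- Two-sided extension of a purely periodic word. -/
def ext (u : ℕ → A) (p : ℕ) (i : ℤ) : A := u (i % (p : ℤ)).toNat

section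
variable {u : ℕ → A} {p : ℕ}

lemma u_mod (hu : ∀ i, u (i + p) = u i) (i : ℕ) : u i = u (i % p) := by
  have h : ∀ k i, u (i + k * p) = u i := by
    intro k
    induction k with
    | zero => intro i; simp
    | succ k ih => intro i; rw [show i + (k + 1) * p = (i + k * p) + p by ring, hu, ih]
  conv_lhs => rw [← Nat.mod_add_div i p, mul_comm]
  exact h _ _

lemma ext_nat (hu : ∀ i, u (i + p) = u i) (i : ℕ) : ext u p (i : ℤ) = u i := by
  unfold ext
  rw [u_mod hu i]
  congr 1

lemma ext_congr {i j : ℤ} (h : i % (p : ℤ) = j % (p : ℤ)) : ext u p i = ext u p j := by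
  unfold ext; rw [h]

end

section
variable {Δ : ℕ → A} {Θ : ℕ → Anti A} {W : ℕ → List A} {u : ℕ → A}

lemma pure_periodic (h : Generates Δ Θ W u) (hp : Periodic u) :
    ∃ p, 0 < p ∧ ∀ i, u (i + p) = u i := by
  obtain ⟨N, p, hp0, hp⟩ := hp
  refine ⟨p, hp0, fun i => ?_⟩
  have hL := le_len h (N + p + i + 1 + 1)
  set n := N + p + i + 1 with hn
  have a1 := pal_letters h n i (by omega)
  have a2 := pal_letters h n (i + p) (by omega)
  have a3 := hp ((W (n + 1)).length - 1 - (i + p)) (by omega)
  rw [show (W (n + 1)).length - 1 - (i + p) + p = (W (n + 1)).length - 1 - i by omega] at a3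
  rw [← a1, ← a2, a3]

lemma sym_of_pal (h : Generates Δ Θ W u) {p : ℕ} (hp0 : 0 < p) (hu : ∀ i, u (i + p) = u i) {n : ℕ}
    (hn : p ≤ (W (n + 1)).length) (i : ℤ) :
    ext u p (((W (n + 1)).length : ℤ) - 1 - i) = lt (Θ n) (ext u p i) := by
  have hp0' : (0 : ℤ) < p := by exact_mod_cast hp0
  have r0 := Int.emod_nonneg i hp0'.ne'
  have r1 := Int.emod_lt_of_pos i hp0'
  obtain ⟨r, hr⟩ := Int.eq_ofNat_of_zero_le r0
  have hrp : r < p := by omega
  have e1 : ext u p i = u r := by
    unfold ext; rw [hr]; rfl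
  have e2 : ext u p (((W (n + 1)).length : ℤ) - 1 - i) = u ((W (n + 1)).length - 1 - r) := by
    rw [← ext_nat hu]
    apply ext_congr
    have h3 : (((W (n + 1)).length - 1 - r : ℕ) : ℤ) = ((W (n + 1)).length : ℤ) - 1 - r := by omega
    rw [h3]
    have h4 : i ≡ (r : ℤ) [ZMOD (p : ℤ)] := by
      rw [Int.ModEq, ← hr, Int.emod_emod_of_dvd _ (dvd_refl _)]
    exact Int.ModEq.sub_left _ h4
  have h1 := pal_letters h n r (by omega)
  rw [e1, e2, ← h1, lt_lt]

lemma pal_of_sym (hN : Normalized W u) (hd : ∀ a, ∃ i, u i = a) {p : ℕ}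
    (hu : ∀ i, u (i + p) = u i) (c : ℕ) (f : A → A)
    (hf : ∀ i : ℤ, ext u p ((c : ℤ) - i) = f (ext u p i)) : ∃ k, (W k).length = c + 1 := by
  have hinv : ∀ a, f (f a) = a := by
    intro a
    obtain ⟨i, rfl⟩ := hd a
    have h1 := hf i
    have h2 := hf ((c : ℤ) - i)
    rw [h1] at h2
    rw [ext_nat hu] at h2
    rw [← h2, show (c : ℤ) - (c - i) = i by ring, ext_nat hu]
  obtain ⟨k, hk⟩ := hN (ofInv f hinv) (c + 1) (by
    rw [isPal_pre]
    intro i hi
    rw [lt_ofInv]
    have h1 := hf ((c - i : ℕ) : ℤ)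
    rw [ext_nat hu] at h1
    rw [show c + 1 - 1 - i = c - i by omega, ← h1]
    rw [show (c : ℤ) - ((c - i : ℕ) : ℤ) = (i : ℤ) by omega, ext_nat hu])
  exact ⟨k, by rw [hk, pre_length]⟩

theorem only_if_direction (h : Generates Δ Θ W u) (hN : Normalized W u)
    (hd : ∀ a, ∃ i, u i = a) (hper : Periodic u) : ∃ N, Cond1 Δ Θ N ∧ Cond2 Θ N := by
  obtain ⟨p, hp0, hu⟩ := pure_periodic h hper
  have hlen : ∀ n, p ≤ n → p ≤ (W (n + 1)).length := by
    intro n hn
    have := le_len h (n + 1)
    omega
  have hcomp : ∀ n, p ≤ n → ∀ i : ℤ,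
      ext u p (2 * ((W (n + 2)).length : ℤ) - (W (n + 1)).length - 1 - i)
        = lt (Θ (n + 1)) (lt (Θ n) (lt (Θ (n + 1)) (ext u p i))) := by
    intro n hn i
    rw [← sym_of_pal h hp0 hu (hlen (n + 1) (by omega)) i,
      ← sym_of_pal h hp0 hu (hlen n hn) _, ← sym_of_pal h hp0 hu (hlen (n + 1) (by omega)) _]
    congr 1
    rw [show n + 1 + 1 = n + 2 from rfl]
    ring
  have hineq : ∀ n, p ≤ n → (W (n + 3)).length + (W (n + 1)).length ≤ 2 * (W (n + 2)).length := by
    intro n hn
    have hlt1 := len_lt h (n + 1)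
    rw [show n + 1 + 1 = n + 2 from rfl] at hlt1
    obtain ⟨k, hk⟩ := pal_of_sym hN hd hu (2 * (W (n + 2)).length - (W (n + 1)).length - 1)
      (fun a => lt (Θ (n + 1)) (lt (Θ n) (lt (Θ (n + 1)) a))) (by
        intro i
        rw [← hcomp n hn i]
        congr 2
        omega)
    have hk2 : n + 2 < k := by
      rw [← (len_mono h).lt_iff_lt]
      omega
    have hk3 : (W (n + 3)).length ≤ (W k).length := (len_mono h).monotone hk2
    omega
  obtain ⟨M, g, hM, hg⟩ := ev_const (fun m => (W (m + 2)).length - (W (m + 1)).length) p (by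
    intro m hm
    have a1 := hineq m hm
    have a2 := len_lt h (m + 1)
    have a3 := len_lt h (m + 2)
    rw [show m + 1 + 1 = m + 2 from rfl] at *
    rw [show m + 2 + 1 = m + 3 from rfl] at *
    rw [show m + 1 + 2 = m + 3 from rfl]
    omega)
  refine ⟨M, ?_, ?_⟩
  · -- condition 1
    have key : ∀ i, M ≤ i → lt (Θ i) (Δ (i + 1)) = ext u p (-1) := by
      intro i hi
      rw [← letter_after h (i + 1), ← ext_nat hu, ← sym_of_pal h hp0 hu (hlen i (by omega))]
      congr 1
      ring
    intro i j hi hj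
    rw [map_single, map_single, key i hi, key j hj]
  · -- condition 2
    intro i hi w hw
    have a1 := hg i hi
    have a2 := hg (i + 1) (by omega)
    have b1 := len_lt h (i + 1)
    have b2 := len_lt h (i + 2)
    rw [show i + 1 + 2 = i + 3 from rfl, show i + 1 + 1 = i + 2 from rfl] at a2
    rw [show i + 1 + 1 = i + 2 from rfl] at b1
    rw [show i + 2 + 1 = i + 3 from rfl] at b2
    have hlet : ∀ a, lt (Θ (i + 2)) a = lt (Θ (i + 1)) (lt (Θ i) (lt (Θ (i + 1)) a)) := by
      intro a
      obtain ⟨j, rfl⟩ := hd a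
      rw [← ext_nat hu, ← hcomp i (by omega), ← sym_of_pal h hp0 hu (hlen (i + 2) (by omega))]
      congr 2
      rw [show i + 2 + 1 = i + 3 from rfl]
      omega
    unfold IsPal at hw ⊢
    conv_rhs => rw [← hw]
    rw [map_eq, map_eq, map_eq (Θ (i + 1)), map_eq (Θ i)]
    simp only [List.map_reverse, List.reverse_reverse, List.map_map]
    apply List.map_congr_left
    intro a _
    simp only [Function.comp]
    rw [hlet, lt_lt]

/-- Let `u` be a generalized pseudostandard word in which every letter of the finite alphabet `A`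
occurs, generated by a normalized directive bi-sequence.  Then `u` is periodic if and only if
conditions 1 and 2 hold from some index on. -/
theorem result {A : Type*} [Finite A] (Δ : ℕ → A) (Θ : ℕ → Anti A) (W : ℕ → List A) (u : ℕ → A)
    (h : Generates Δ Θ W u) (hd : ∀ a, ∃ i, u i = a) (hN : Normalized W u) :
    Periodic u ↔ ∃ N, Cond1 Δ Θ N ∧ Cond2 Θ N := by
  constructor
  · exact only_if_direction h hN hd
  · rintro ⟨N, h1, h2⟩
    exact if_direction h h1 h2

end

end Pool.Agent.Results.MP_757726_co.Periodicity
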